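import Pool.Agent.Helper68.KPR.St

/-! PROJECT KP (MP_26be5b_ag), module RDV: Jacobian derivations of the algebra `R^(d)`. -/

set_option autoImplicit false

namespace Pool.Agent.Helper73.KPR

open Pool.Agent.Helper68.KPR Pool.Agent.Helper52.KP Pool.Agent.Helper5.KPA MvPolynomial

/-- the derivation `f ↦ jac (update a l f)` -/
private noncomputable def E {m : ℕ} (a : Fin m → MvPolynomial (Fin m) ℂ) (l : Fin m) :
    Derivation ℂ (MvPolynomial (Fin m) ℂ) (MvPolynomial (Fin m) ℂ) :=
  ∑ j, (Matrix.adjugate (Matrix.of fun i j => MvPolynomial.pderiv j (a i)) j l) • pderiv j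

private theorem E_apply {m : ℕ} (a : Fin m → MvPolynomial (Fin m) ℂ) (l : Fin m)
    (f : MvPolynomial (Fin m) ℂ) : E a l f = jac (Function.update a l f) := by
  classical
  have h1 : (Matrix.of fun i j => MvPolynomial.pderiv j (Function.update a l f i)) =
      (Matrix.of fun i j => MvPolynomial.pderiv j (a i)).updateRow l (fun j => pderiv j f) := by
    ext1 i j
    rcases eq_or_ne i l with rfl | hi
    · simp
    · simp [hi, Matrix.updateRow_ne]
  unfold jac
  rw [h1, Matrix.det_eq_sum_mul_adjugate_row _ l]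
  have h2 := congrFun (map_sum (Derivation.coeFnAddMonoidHom :
    Derivation ℂ (MvPolynomial (Fin m) ℂ) (MvPolynomial (Fin m) ℂ) →+ _)
    (fun j => (Matrix.adjugate (Matrix.of fun i j => MvPolynomial.pderiv j (a i)) j l) •
      pderiv j) Finset.univ) f
  rw [Finset.sum_apply] at h2
  refine h2.trans ?_
  refine Finset.sum_congr rfl fun j _ => ?_
  change (Matrix.adjugate (Matrix.of fun i j => MvPolynomial.pderiv j (a i)) j l) *
    pderiv j f = _
  rw [Matrix.updateRow_self, mul_comm, Matrix.adjugate_apply, Matrix.adjugate_apply,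
    Matrix.updateRow_idem]

private theorem J_ne {C : Cone} (hC : Good C) : C.J ≠ 0 := by
  intro h
  have h1 : ∃ z, ev C.Δ z ≠ 0 := by
    by_contra hcon
    push Not at hcon
    exact hC.Δ0 (MvPolynomial.funext fun z => by rw [map_zero]; exact hcon z)
  obtain ⟨z, hz⟩ := h1
  apply hC.J0 z hz
  rw [h]
  simp [ev]

private theorem Xpow {C : Cone} (hC : Good C) (i : Fin C.nx) (k : ℕ) : C.X i ^ k ∈ C.R k := by
  induction k with
  | zero => simpa using hC.one
  | succ k ih => rw [pow_succ]; exact hC.mul _ _ _ _ ih (hC.XR i)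

private theorem RD_le {C : Cone} {r k : ℕ} {x : MvPolynomial (Fin C.m) ℂ} (h : x ∈ RD C r k) :
    x ∈ DA C r := Algebra.subset_adjoin (Set.mem_iUnion.2 ⟨k, h⟩)

private theorem jacR {C : Cone} (hC : Good C) {r : ℕ} (hr : 0 < r)
    {a : Fin C.m → MvPolynomial (Fin C.m) ℂ} (ha : ∀ i, a i ∈ RD C r 1) (l : Fin C.m) (k : ℕ)
    (f : MvPolynomial (Fin C.m) ℂ) (hf : f ∈ RD C r k) :
    ∃ s : MvPolynomial (Fin C.m) ℂ, jac (Function.update a l f) = s * C.J ∧
      ∀ i : Fin C.nx, s * C.X i ^ C.n ∈ RD C r (C.m - 1 + k) := by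
  classical
  have h := (hC.jac (Function.update (fun _ => C.n * r * 1) l (C.n * r * k))
    (Function.update a l f) (by
      intro i
      rcases eq_or_ne i l with rfl | hi
      · rw [Function.update_self, Function.update_self]; exact hf
      · rw [Function.update_of_ne hi, Function.update_of_ne hi]; exact ha i)).1
  obtain ⟨s, hs, e⟩ := h
  have hsum : ∑ i, Function.update (fun _ : Fin C.m => C.n * r * 1) l (C.n * r * k) i =
      C.n * r * (C.m - 1 + k) := by
    rw [Finset.sum_update_of_mem (Finset.mem_univ l)]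
    rw [Finset.sum_const, smul_eq_mul]
    have hcard : (Finset.univ \ {l} : Finset (Fin C.m)).card = C.m - 1 := by
      rw [Finset.card_sdiff_of_subset (Finset.subset_univ _)]
      simp
    rw [hcard]
    ring
  refine ⟨s, e, fun i => ?_⟩
  rw [hsum] at hs
  have h2 := hC.mul _ _ _ _ hs (Xpow hC i C.n)
  have hn := hC.hn
  have hm := hC.hm
  have hle : C.n ≤ C.n * r * (C.m - 1 + k) := by
    have h3 : 0 < r * (C.m - 1 + k) := Nat.mul_pos hr (by omega)
    calc C.n = C.n * 1 := (mul_one _).symm
      _ ≤ C.n * (r * (C.m - 1 + k)) := Nat.mul_le_mul_left _ h3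
      _ = _ := by ring
  rw [Nat.sub_add_cancel hle] at h2
  exact h2

theorem hRDV (hAJC : StAJC) : StRDV := by
  classical
  intro C hC r F hF a ha
  have hJ := J_ne hC
  have hr := hF.hr
  have hn := hC.hn
  have hm := hC.hm
  have l0 : Fin C.m := ⟨0, by omega⟩
  obtain ⟨Sa, e0, hS⟩ := jacR hC hr ha.mem l0 1 (a l0) (ha.mem l0)
  rw [Function.update_eq_self] at e0
  refine ⟨Sa, ?_, fun i => ⟨?_, ?_⟩⟩
  · rintro rfl
    rw [zero_mul] at e0
    exact hAJC _ a ha.ai e0
  · have := hS i
    rwa [show C.m - 1 + 1 = C.m by omega] at this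
  intro a' ha' l
  have key : ∀ x : MvPolynomial (Fin C.m) ℂ, x ∈ DA C r →
      ∃ y : DA C r, C.X i ^ C.n * E a l x = (y : MvPolynomial (Fin C.m) ℂ) * C.J := by
    intro x hx
    induction hx using Algebra.adjoin_induction with
    | mem x hx =>
      obtain ⟨k, hk⟩ := Set.mem_iUnion.1 hx
      obtain ⟨s, e, hs⟩ := jacR hC hr ha.mem l k x hk
      refine ⟨⟨s * C.X i ^ C.n, RD_le (hs i)⟩, ?_⟩
      rw [E_apply, e]
      ring
    | algebraMap c =>
      refine ⟨0, ?_⟩
      rw [Derivation.map_algebraMap]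
      simp
    | add x y _ _ h1 h2 =>
      obtain ⟨u, hu⟩ := h1
      obtain ⟨v, hv⟩ := h2
      refine ⟨u + v, ?_⟩
      rw [map_add, mul_add, hu, hv]
      push_cast
      ring
    | mul x y hx hy h1 h2 =>
      obtain ⟨u, hu⟩ := h1
      obtain ⟨v, hv⟩ := h2
      refine ⟨⟨x, hx⟩ * v + ⟨y, hy⟩ * u, ?_⟩
      rw [Derivation.leibniz, smul_eq_mul, smul_eq_mul, mul_add, mul_left_comm, hv,
        mul_left_comm _ y, hu]
      push_cast
      ring
  choose g hg using fun x : DA C r => key x x.2
  have huniq : ∀ x y : DA C r, (x : MvPolynomial (Fin C.m) ℂ) * C.J = y * C.J → x = y := by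
    intro x y h
    exact Subtype.ext (mul_right_cancel₀ hJ h)
  let δ₀ : DA C r →ₗ[ℂ] DA C r :=
    { toFun := g
      map_add' := fun x y => by
        apply huniq
        rw [← hg]
        push_cast
        rw [map_add, mul_add, hg, hg]
        ring
      map_smul' := fun c x => by
        apply huniq
        rw [← hg]
        simp only [RingHom.id_apply]
        push_cast
        rw [Derivation.map_smul, mul_smul_comm, hg, smul_mul_assoc] }
  refine ⟨Derivation.mk' δ₀ fun x y => ?_, ?_, fun j hj => ?_⟩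
  · apply huniq
    change ((g (x * y) : DA C r) : MvPolynomial (Fin C.m) ℂ) * C.J = _
    rw [← hg]
    change _ = ((x * g y + y * g x : DA C r) : MvPolynomial (Fin C.m) ℂ) * C.J
    push_cast
    rw [Derivation.leibniz, smul_eq_mul, smul_eq_mul, mul_add, mul_left_comm, hg,
      mul_left_comm _ (y : MvPolynomial (Fin C.m) ℂ), hg]
    ring
  · change ((g (a' l) : DA C r) : MvPolynomial (Fin C.m) ℂ) = _
    apply mul_right_cancel₀ hJ
    rw [← hg, ha', E_apply, Function.update_eq_self, e0]
    ring
  · change g (a' j) = 0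
    apply huniq
    rw [← hg, ha', E_apply]
    have : jac (Function.update a l (a j)) = 0 := by
      unfold jac
      refine Matrix.det_zero_of_row_eq hj ?_
      funext q
      simp [Function.update_of_ne hj]
    rw [this]
    simp

end Pool.Agent.Helper73.KPR
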